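import Mathlib

/-!
# MP_223ae3_pr : stability of the third-moment Khintchine inequality
-/

open Finset
open scoped Classical

namespace Pool.Agent.Results.MP_223ae3_pr.ThirdMomentStability

/-- The real sign `+1` or `-1` attached to a bit. -/
def sg (b : Bool) : ℝ := if b then 1 else -1

/-- `E |a_1 ε_1 + ... + a_n ε_n|^3` for independent random signs `ε_i`: the average over all
`2^n` sign patterns. -/
noncomputable def thirdMoment {n : ℕ} (a : Fin n → ℝ) : ℝ :=
  (∑ ε : Fin n → Bool, |∑ i, a i * sg (ε i)| ^ 3) / 2 ^ n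

/-- The deficit quantity `D(a) = ∑ (a_i² - 1/n)²`. -/
noncomputable def deficit {n : ℕ} (a : Fin n → ℝ) : ℝ :=
  ∑ i, (a i ^ 2 - 1 / (n : ℝ)) ^ 2

/-! ### expectations over signs, recursively -/

/-- expectation of `f (∑ ± x)` over the entries `x` of a list -/
noncomputable def EL {V : Type} [AddCommGroup V] : List V → (V → ℝ) → ℝ
  | [], f => f 0
  | x :: l, f => (EL l (fun s => f (s + x)) + EL l (fun s => f (s - x))) / 2

section EL
variable {V : Type} [AddCommGroup V]

lemma EL_add (l : List V) : ∀ f g : V → ℝ, EL l (fun s => f s + g s) = EL l f + EL l g := by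
  induction l with
  | nil => intro f g; rfl
  | cons x l ih =>
    intro f g
    simp only [EL]
    rw [ih (fun s => f (s + x)) (fun s => g (s + x)), ih (fun s => f (s - x)) (fun s => g (s - x))]
    ring

lemma EL_mul (l : List V) (c : ℝ) : ∀ f : V → ℝ, EL l (fun s => c * f s) = c * EL l f := by
  induction l with
  | nil => intro f; rfl
  | cons x l ih =>
    intro f
    simp only [EL]
    rw [ih (fun s => f (s + x)), ih (fun s => f (s - x))]
    ring

lemma EL_const (l : List V) (c : ℝ) : EL l (fun _ => c) = c := by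
  induction l with
  | nil => rfl
  | cons x l ih => simp only [EL]; rw [ih]; ring

lemma EL_sub (l : List V) (f g : V → ℝ) : EL l (fun s => f s - g s) = EL l f - EL l g := by
  have h := EL_add l f (fun s => (-1) * g s)
  rw [EL_mul] at h
  have : (fun s => f s - g s) = (fun s => f s + (-1) * g s) := by funext s; ring
  rw [this, h]; ring

lemma EL_sum {ι : Type} (l : List V) (J : Finset ι) (f : ι → V → ℝ) :
    EL l (fun s => ∑ j ∈ J, f j s) = ∑ j ∈ J, EL l (f j) := by
  induction J using Finset.induction_on with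
  | empty => simp [EL_const]
  | insert a s ha ih =>
    rw [Finset.sum_insert ha, ← ih, ← EL_add]
    congr 1
    funext t
    rw [Finset.sum_insert ha]

lemma EL_mono (l : List V) : ∀ f g : V → ℝ, (∀ s, f s ≤ g s) → EL l f ≤ EL l g := by
  induction l with
  | nil => intro f g h; exact h 0
  | cons x l ih =>
    intro f g h
    simp only [EL]
    have h1 := ih (fun s => f (s + x)) (fun s => g (s + x)) (fun s => h _)
    have h2 := ih (fun s => f (s - x)) (fun s => g (s - x)) (fun s => h _)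
    linarith

lemma EL_perm {l l' : List V} (h : l.Perm l') : ∀ f : V → ℝ, EL l f = EL l' f := by
  induction h with
  | nil => intro f; rfl
  | cons x _ ih => intro f; simp only [EL]; rw [ih, ih]
  | swap x y l =>
    intro f
    simp only [EL]
    have e1 : (fun s => f (s + x + y)) = (fun s => f (s + y + x)) := by
      funext s; congr 1; abel
    have e2 : (fun s => f (s + x - y)) = (fun s => f (s - y + x)) := by
      funext s; congr 1; abel
    have e3 : (fun s => f (s - x + y)) = (fun s => f (s + y - x)) := by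
      funext s; congr 1; abel
    have e4 : (fun s => f (s - x - y)) = (fun s => f (s - y - x)) := by
      funext s; congr 1; abel
    rw [e1, e2, e3, e4]; ring
  | trans _ _ ih1 ih2 => intro f; rw [ih1, ih2]

lemma EL_neg (l : List V) : ∀ f : V → ℝ, EL l (fun s => f (-s)) = EL l f := by
  induction l with
  | nil => intro f; simp [EL]
  | cons x l ih =>
    intro f
    simp only [EL]
    have e1 : (fun s => f (-(s + x))) = (fun s => (fun t => f (t - x)) (-s)) := by
      funext s; simp only; congr 1; abel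
    have e2 : (fun s => f (-(s - x))) = (fun s => (fun t => f (t + x)) (-s)) := by
      funext s; simp only; congr 1; abel
    rw [e1, e2, ih (fun t => f (t - x)), ih (fun t => f (t + x))]; ring

lemma EL_comm {W : Type} [AddCommGroup W] (l : List V) (l' : List W) : ∀ F : V → W → ℝ,
    EL l (fun s => EL l' (fun t => F s t)) = EL l' (fun t => EL l (fun s => F s t)) := by
  induction l with
  | nil => intro F; rfl
  | cons x l ih =>
    intro F
    simp only [EL]
    rw [ih (fun s t => F (s + x) t), ih (fun s t => F (s - x) t), ← EL_add]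
    have : (fun t => (EL l (fun s => F (s + x) t) + EL l (fun s => F (s - x) t)) / 2)
        = (fun t => (1 / 2 : ℝ) * (EL l (fun s => F (s + x) t) + EL l (fun s => F (s - x) t))) := by
      funext t; ring
    rw [this, EL_mul]; ring

end EL

/-- the sum of signs as an average -/
lemma sum_signs (n : ℕ) : ∀ (a : Fin n → ℝ) (f : ℝ → ℝ),
    ∑ ε : Fin n → Bool, f (∑ i, a i * sg (ε i)) = 2 ^ n * EL (List.ofFn a) f := by
  induction n with
  | zero => intro a f; simp [EL]
  | succ n ih =>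
    intro a f
    rw [← (Fin.consEquiv (fun _ => Bool)).sum_comp, Fintype.sum_prod_type, Fintype.sum_bool]
    rw [List.ofFn_succ]
    simp only [EL]
    have h1 := ih (fun i => a i.succ) (fun s => f (s + a 0))
    have h2 := ih (fun i => a i.succ) (fun s => f (s - a 0))
    have e1 : ∀ ε : Fin n → Bool,
        f (∑ i, a i * sg ((Fin.consEquiv (fun _ => Bool)) (true, ε) i))
          = f ((∑ i : Fin n, a i.succ * sg (ε i)) + a 0) := by
      intro ε
      congr 1
      rw [Fin.sum_univ_succ]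
      simp [Fin.consEquiv, sg]
      ring
    have e2 : ∀ ε : Fin n → Bool,
        f (∑ i, a i * sg ((Fin.consEquiv (fun _ => Bool)) (false, ε) i))
          = f ((∑ i : Fin n, a i.succ * sg (ε i)) - a 0) := by
      intro ε
      congr 1
      rw [Fin.sum_univ_succ]
      simp [Fin.consEquiv, sg]
      ring
    rw [Finset.sum_congr rfl (fun ε _ => e1 ε), Finset.sum_congr rfl (fun ε _ => e2 ε), h1, h2]
    rw [pow_succ]; ring

lemma thirdMoment_eq {n : ℕ} (a : Fin n → ℝ) :
    thirdMoment a = EL (List.ofFn a) (fun s => |s| ^ 3) := by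
  unfold thirdMoment
  rw [sum_signs n a (fun s => |s| ^ 3)]
  field_simp


/-! ### small ball estimate -/

/-- pair up consecutive entries -/
def pr : List ℝ → List (ℝ × ℝ)
  | [] => []
  | [p] => [(0, p)]
  | p :: q :: t => (q, p - q) :: pr t

lemma EL_pr : ∀ (L : List ℝ) (f : ℝ → ℝ),
    EL L f = EL (pr L) (fun w => EL (pr L) (fun w' => f (w.1 - w'.1 + w.2)))
  | [], f => by simp [pr, EL]
  | [p], f => by simp [pr, EL]
  | p :: q :: t, f => by
    have ih := EL_pr t
    simp only [pr, EL]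
    rw [ih (fun s => f (s + q + p)), ih (fun s => f (s - q + p)), ih (fun s => f (s + q - p)),
      ih (fun s => f (s - q - p))]
    have h : ∀ (F : ℝ × ℝ → ℝ × ℝ → ℝ) (G : ℝ × ℝ → ℝ × ℝ → ℝ),
        EL (pr t) (fun w => (EL (pr t) (F w) + EL (pr t) (G w)) / 2)
          = (EL (pr t) (fun w => EL (pr t) (F w)) + EL (pr t) (fun w => EL (pr t) (G w))) / 2 := by
      intro F G
      have : (fun w => (EL (pr t) (F w) + EL (pr t) (G w)) / 2)
          = (fun w => (1 / 2 : ℝ) * (EL (pr t) (F w) + EL (pr t) (G w))) := by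
        funext w; ring
      rw [this, EL_mul, EL_add]; ring
    rw [h, h]
    have e1 : (fun w : ℝ × ℝ => EL (pr t) (fun w' => f ((w + (q, p - q)).1 - (w' + (q, p - q)).1
        + (w + (q, p - q)).2)))
        = (fun w => EL (pr t) (fun w' => f (w.1 - w'.1 + w.2 - q + p))) := by
      funext w; congr 1; funext w'; congr 1; simp; ring
    have e2 : (fun w : ℝ × ℝ => EL (pr t) (fun w' => f ((w + (q, p - q)).1 - (w' - (q, p - q)).1
        + (w + (q, p - q)).2)))
        = (fun w => EL (pr t) (fun w' => f (w.1 - w'.1 + w.2 + q + p))) := by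
      funext w; congr 1; funext w'; congr 1; simp; ring
    have e3 : (fun w : ℝ × ℝ => EL (pr t) (fun w' => f ((w - (q, p - q)).1 - (w' + (q, p - q)).1
        + (w - (q, p - q)).2)))
        = (fun w => EL (pr t) (fun w' => f (w.1 - w'.1 + w.2 - q - p))) := by
      funext w; congr 1; funext w'; congr 1; simp; ring
    have e4 : (fun w : ℝ × ℝ => EL (pr t) (fun w' => f ((w - (q, p - q)).1 - (w' - (q, p - q)).1
        + (w - (q, p - q)).2)))
        = (fun w => EL (pr t) (fun w' => f (w.1 - w'.1 + w.2 + q - p))) := by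
      funext w; congr 1; funext w'; congr 1; simp; ring
    rw [e1, e2, e3, e4]
    ring

lemma EL_sq (P : List (ℝ × ℝ)) : ∀ c : ℝ,
    EL P (fun s => (s.1 + c) ^ 2) = c ^ 2 + (P.map (fun w => w.1 ^ 2)).sum := by
  induction P with
  | nil => intro c; simp [EL]
  | cons x P ih =>
    intro c
    simp only [EL, List.map_cons, List.sum_cons]
    have e1 : (fun s : ℝ × ℝ => ((s + x).1 + c) ^ 2) = (fun s => (s.1 + (x.1 + c)) ^ 2) := by
      funext s; simp; ring
    have e2 : (fun s : ℝ × ℝ => ((s - x).1 + c) ^ 2) = (fun s => (s.1 + (c - x.1)) ^ 2) := by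
      funext s; simp; ring
    rw [e1, e2, ih, ih]; ring

lemma EL_mono_supp (P : List (ℝ × ℝ)) : ∀ f g : ℝ × ℝ → ℝ,
    (∀ s : ℝ × ℝ, |s.2| ≤ (P.map (fun w => |w.2|)).sum → f s ≤ g s) → EL P f ≤ EL P g := by
  induction P with
  | nil => intro f g h; simp only [EL]; exact h 0 (by simp)
  | cons x P ih =>
    intro f g h
    simp only [EL]
    have h1 := ih (fun s => f (s + x)) (fun s => g (s + x)) (fun s hs => h _ (by
      simp only [List.map_cons, List.sum_cons, Prod.snd_add]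
      calc |s.2 + x.2| ≤ |s.2| + |x.2| := abs_add_le _ _
        _ ≤ _ := by linarith))
    have h2 := ih (fun s => f (s - x)) (fun s => g (s - x)) (fun s hs => h _ (by
      simp only [List.map_cons, List.sum_cons, Prod.snd_sub]
      calc |s.2 - x.2| ≤ |s.2| + |x.2| := abs_sub _ _
        _ ≤ _ := by linarith))
    linarith

lemma pr_sq_le : ∀ L : List ℝ, (∀ x ∈ L, 0 ≤ x) →
    ((pr L).map (fun w => w.1 ^ 2)).sum ≤ (L.map (fun x => x ^ 2)).sum
  | [], _ => by simp [pr]
  | [p], _ => by simp [pr]; positivity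
  | p :: q :: t, h => by
    have ih := pr_sq_le t (fun x hx => h x (by simp [hx]))
    simp only [pr, List.map_cons, List.sum_cons]
    nlinarith [sq_nonneg p]

lemma pr_abs_le : ∀ (L : List ℝ) (b : ℝ), L.Pairwise (· ≥ ·) → (∀ x ∈ L, 0 ≤ x) →
    (∀ x ∈ L, x ≤ b) → 0 ≤ b → ((pr L).map (fun w => |w.2|)).sum ≤ b
  | [], b, _, _, _, hb => by simpa [pr] using hb
  | [p], b, _, h0, h1, hb => by
    simp only [pr, List.map_cons, List.map_nil, List.sum_cons, List.sum_nil, add_zero]
    rw [abs_of_nonneg (h0 p (by simp))]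
    exact h1 p (by simp)
  | p :: q :: t, b, hs, h0, h1, hb => by
    rw [List.pairwise_cons, List.pairwise_cons] at hs
    have ih := pr_abs_le t q hs.2.2 (fun x hx => h0 x (by simp [hx])) (fun x hx => hs.2.1 x hx)
      (h0 q (by simp))
    simp only [pr, List.map_cons, List.sum_cons]
    have hpq : q ≤ p := hs.1 q (by simp)
    rw [abs_of_nonneg (by linarith)]
    have := h1 p (by simp)
    linarith

/-- Half of the mass is on each side. -/
lemma half_mass (P : List (ℝ × ℝ)) :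
    (1 : ℝ) / 2 ≤ EL P (fun w => if 0 ≤ w.2 then (1 : ℝ) else 0) := by
  have h1 := EL_neg P (fun w : ℝ × ℝ => if 0 ≤ w.2 then (1 : ℝ) else 0)
  have h2 : (1 : ℝ) ≤ EL P (fun w => (if 0 ≤ w.2 then (1 : ℝ) else 0)
      + (if 0 ≤ (-w).2 then (1 : ℝ) else 0)) := by
    have := EL_mono P (fun _ => (1 : ℝ)) (fun w => (if 0 ≤ w.2 then (1 : ℝ) else 0)
      + (if 0 ≤ (-w).2 then (1 : ℝ) else 0)) (by
        intro s
        simp only [Prod.snd_neg, Left.nonneg_neg_iff]
        rcases le_total 0 s.2 with h | h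
        · simp only [h, if_true]; split_ifs <;> norm_num
        · simp only [h, if_true]; split_ifs <;> norm_num)
    rwa [EL_const] at this
  rw [EL_add, h1] at h2
  linarith

lemma small_ball_pairs (P : List (ℝ × ℝ)) (b : ℝ) (hb : 0 < b) (hb1 : b ≤ 1)
    (h1 : (P.map (fun w => w.1 ^ 2)).sum ≤ 1) (h2 : (P.map (fun w => |w.2|)).sum ≤ b) :
    b / 192 ≤ EL P (fun w => EL P (fun w' => if |w.1 - w'.1 + w.2| ≤ b then (1 : ℝ) else 0)) := by
  set J : Finset ℤ := Finset.Icc (⌊-(2 / b)⌋) (⌊2 / b⌋) with hJ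
  set m : ℤ → ℝ := fun j => EL P (fun w => if (0 ≤ w.2 ∧ ⌊w.1 / b⌋ = j) then (1 : ℝ) else 0) with hm
  have hsum : (1 : ℝ) / 4 ≤ ∑ j ∈ J, m j := by
    rw [hm]
    rw [← EL_sum]
    have h3 : EL P (fun w => (if 0 ≤ w.2 then (1 : ℝ) else 0) - (1 / 4) * (w.1 + 0) ^ 2)
        ≤ EL P (fun s => ∑ j ∈ J, if (0 ≤ s.2 ∧ ⌊s.1 / b⌋ = j) then (1 : ℝ) else 0) := by
      apply EL_mono
      intro s
      by_cases hs : 0 ≤ s.2
      · by_cases hs2 : |s.1| < 2
        · have hmem : ⌊s.1 / b⌋ ∈ J := by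
            rw [hJ, Finset.mem_Icc]
            rw [abs_lt] at hs2
            constructor
            · apply Int.floor_le_floor
              rw [← neg_div, div_le_div_iff_of_pos_right hb]; linarith
            · apply Int.floor_le_floor
              rw [div_le_div_iff_of_pos_right hb]; linarith
          have : (∑ j ∈ J, if (0 ≤ s.2 ∧ ⌊s.1 / b⌋ = j) then (1 : ℝ) else 0) = 1 := by
            simp only [hs, true_and]
            rw [Finset.sum_ite_eq]
            simp [hmem]
          rw [this, if_pos hs]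
          have := sq_nonneg (s.1 + 0)
          linarith
        · push Not at hs2
          have h4 : (4 : ℝ) ≤ (s.1 + 0) ^ 2 := by
            rw [add_zero, ← sq_abs]; nlinarith [abs_nonneg s.1]
          rw [if_pos hs]
          have : (0 : ℝ) ≤ ∑ j ∈ J, if (0 ≤ s.2 ∧ ⌊s.1 / b⌋ = j) then (1 : ℝ) else 0 :=
            Finset.sum_nonneg (fun j _ => by split_ifs <;> norm_num)
          linarith
      · rw [if_neg hs]
        have : (0 : ℝ) ≤ ∑ j ∈ J, if (0 ≤ s.2 ∧ ⌊s.1 / b⌋ = j) then (1 : ℝ) else 0 :=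
          Finset.sum_nonneg (fun j _ => by split_ifs <;> norm_num)
        have := sq_nonneg (s.1 + 0)
        linarith
    rw [EL_sub, EL_mul, EL_sq] at h3
    have := half_mass P
    linarith
  have hcard : (J.card : ℝ) ≤ 6 / b := by
    rw [hJ, Int.card_Icc]
    have h5 : (0 : ℤ) ≤ ⌊2 / b⌋ + 1 - ⌊-(2 / b)⌋ := by
      have : ⌊-(2 / b)⌋ ≤ ⌊2 / b⌋ := by
        apply Int.floor_le_floor
        have : (0 : ℝ) < 2 / b := by positivity
        linarith
      omega
    have h6 : ((⌊2 / b⌋ + 1 - ⌊-(2 / b)⌋).toNat : ℝ) = ((⌊2 / b⌋ + 1 - ⌊-(2 / b)⌋ : ℤ) : ℝ) := by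
      exact_mod_cast congrArg (fun z : ℤ => (z : ℝ)) (Int.toNat_of_nonneg h5)
    rw [h6]
    push_cast
    have h7 := Int.floor_le (2 / b)
    have h8 := Int.lt_floor_add_one (-(2 / b))
    have h9 : (1 : ℝ) ≤ 1 / b := by rw [le_div_iff₀ hb]; linarith
    have h10 : (6 : ℝ) / b = 2 / b + 2 / b + 2 * (1 / b) := by ring
    linarith
  have hCS : (∑ j ∈ J, m j) ^ 2 ≤ (J.card : ℝ) * ∑ j ∈ J, m j ^ 2 := sq_sum_le_card_mul_sum_sq
  have hsq : b / 96 ≤ ∑ j ∈ J, m j ^ 2 := by
    have hpos : (0 : ℝ) ≤ ∑ j ∈ J, m j ^ 2 := Finset.sum_nonneg (fun _ _ => sq_nonneg _)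
    have h11 : (1 : ℝ) / 16 ≤ (∑ j ∈ J, m j) ^ 2 := by nlinarith
    have h12 : (J.card : ℝ) * ∑ j ∈ J, m j ^ 2 ≤ 6 / b * ∑ j ∈ J, m j ^ 2 :=
      mul_le_mul_of_nonneg_right hcard hpos
    have h13 : (1 : ℝ) / 16 ≤ 6 / b * ∑ j ∈ J, m j ^ 2 := by linarith
    rw [div_mul_eq_mul_div, le_div_iff₀ hb] at h13
    linarith
  -- the double expectation
  set K : ℝ × ℝ → ℝ × ℝ → ℝ := fun w w' =>
    ∑ j ∈ J, (if (0 ≤ w.2 ∧ ⌊w.1 / b⌋ = j) then (1 : ℝ) else 0)
      * (if (0 ≤ w'.2 ∧ ⌊w'.1 / b⌋ = j) then (1 : ℝ) else 0) with hK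
  have hKK : EL P (fun w => EL P (fun w' => K w w')) = ∑ j ∈ J, m j ^ 2 := by
    have : (fun w => EL P (fun w' => K w w')) = (fun w => ∑ j ∈ J,
        (if (0 ≤ w.2 ∧ ⌊w.1 / b⌋ = j) then (1 : ℝ) else 0) * m j) := by
      funext w
      rw [hK]
      simp only
      rw [EL_sum]
      apply Finset.sum_congr rfl
      intro j _
      rw [EL_mul]
    rw [this, EL_sum]
    apply Finset.sum_congr rfl
    intro j _
    have e : (fun w : ℝ × ℝ => (if (0 ≤ w.2 ∧ ⌊w.1 / b⌋ = j) then (1 : ℝ) else 0) * m j)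
        = (fun w => m j * (if (0 ≤ w.2 ∧ ⌊w.1 / b⌋ = j) then (1 : ℝ) else 0)) := by
      funext w; ring
    rw [e, EL_mul, sq]
  have hKnn : ∀ w w', 0 ≤ K w w' := by
    intro w w'
    rw [hK]
    apply Finset.sum_nonneg
    intro j _
    split_ifs <;> norm_num
  have hKsymm : ∀ w w', K w w' = K w' w := by
    intro w w'
    rw [hK]
    apply Finset.sum_congr rfl
    intro j _
    ring
  have hKle : ∀ w w', K w w' ≤ 1 := by
    intro w w'
    rw [hK]
    simp only
    calc (∑ j ∈ J, (if (0 ≤ w.2 ∧ ⌊w.1 / b⌋ = j) then (1 : ℝ) else 0)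
      * (if (0 ≤ w'.2 ∧ ⌊w'.1 / b⌋ = j) then (1 : ℝ) else 0))
        ≤ ∑ j ∈ J, (if (⌊w.1 / b⌋ = j) then (1 : ℝ) else 0) := by
          apply Finset.sum_le_sum
          intro j _
          by_cases h : ⌊w.1 / b⌋ = j
          · simp only [h, and_true, if_true]; split_ifs <;> norm_num
          · simp [h]
      _ ≤ 1 := by
          rw [Finset.sum_ite_eq]; split_ifs <;> norm_num
  have hK0 : ∀ w w', K w w' ≠ 0 → 0 ≤ w.2 ∧ 0 ≤ w'.2 ∧ |w.1 - w'.1| ≤ b := by
    intro w w' h
    rw [hK] at h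
    obtain ⟨j, _, hj⟩ := Finset.exists_ne_zero_of_sum_ne_zero h
    have h14 : (0 ≤ w.2 ∧ ⌊w.1 / b⌋ = j) := by
      by_contra hcon; simp [hcon] at hj
    have h15 : (0 ≤ w'.2 ∧ ⌊w'.1 / b⌋ = j) := by
      by_contra hcon; simp [hcon] at hj
    refine ⟨h14.1, h15.1, ?_⟩
    have a1 := Int.floor_le (w.1 / b)
    have a2 := Int.lt_floor_add_one (w.1 / b)
    have a3 := Int.floor_le (w'.1 / b)
    have a4 := Int.lt_floor_add_one (w'.1 / b)
    rw [h14.2] at a1 a2
    rw [h15.2] at a3 a4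
    rw [le_div_iff₀ hb] at a1 a3
    rw [div_lt_iff₀ hb] at a2 a4
    rw [abs_le]
    constructor <;> nlinarith
  set T : ℝ × ℝ → ℝ × ℝ → ℝ := fun w w' => if w.1 ≤ w'.1 then K w w' else 0 with hT
  have hTT : b / 192 ≤ EL P (fun w => EL P (fun w' => T w w')) := by
    have h16 : EL P (fun w => EL P (fun w' => K w w'))
        ≤ EL P (fun w => EL P (fun w' => T w w')) + EL P (fun w => EL P (fun w' => T w' w)) := by
      rw [← EL_add]
      apply EL_mono
      intro w
      rw [← EL_add]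
      apply EL_mono
      intro w'
      rw [hT]
      simp only
      rcases le_total w.1 w'.1 with h | h
      · rw [if_pos h]
        have := hKnn w' w
        split_ifs <;> linarith
      · rw [if_pos h, hKsymm w w']
        have := hKnn w' w
        have := hKnn w w'
        have := hKsymm w w'
        split_ifs <;> linarith
    have h17 : EL P (fun w => EL P (fun w' => T w' w)) = EL P (fun w => EL P (fun w' => T w w')) :=
      EL_comm P P (fun w w' => T w' w)
    rw [h17, hKK] at h16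
    linarith
  refine hTT.trans ?_
  apply EL_mono_supp
  intro w hw
  apply EL_mono
  intro w'
  rw [hT]
  simp only
  by_cases h : w.1 ≤ w'.1
  · rw [if_pos h]
    by_cases h0 : K w w' = 0
    · rw [h0]; split_ifs <;> norm_num
    · obtain ⟨c1, c2, c3⟩ := hK0 w w' h0
      have : |w.1 - w'.1 + w.2| ≤ b := by
        rw [abs_le] at c3 ⊢
        rw [abs_of_nonneg c1] at hw
        constructor <;> linarith
      rw [if_pos this]
      exact hKle w w'
  · rw [if_neg h]; split_ifs <;> norm_num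

lemma small_ball (L : List ℝ) (b : ℝ) (hb : 0 < b) (hb1 : b ≤ 1) (h0 : ∀ x ∈ L, 0 ≤ x)
    (h1 : ∀ x ∈ L, x ≤ b) (h2 : (L.map (fun x => x ^ 2)).sum ≤ 1) :
    b / 192 ≤ EL L (fun s => if |s| ≤ b then (1 : ℝ) else 0) := by
  set L' := L.insertionSort (· ≥ ·) with hL'
  have hp : L'.Perm L := List.perm_insertionSort _ _
  rw [← EL_perm hp, EL_pr]
  apply small_ball_pairs _ b hb hb1
  · refine (pr_sq_le L' (fun x hx => h0 x (hp.mem_iff.mp hx))).trans ?_
    rw [(hp.map _).sum_eq]; exact h2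
  · apply pr_abs_le L' b _ (fun x hx => h0 x (hp.mem_iff.mp hx))
      (fun x hx => h1 x (hp.mem_iff.mp hx)) hb.le
    exact List.pairwise_insertionSort _ _


/-! ### the pointwise inequality -/

/-- positive part cubed -/
noncomputable def pc (x : ℝ) : ℝ := (max x 0) ^ 3

lemma abs_cube_pair (s x : ℝ) (hx : 0 ≤ x) :
    |s + x| ^ 3 + |s - x| ^ 3 = 2 * (|s| ^ 3 + 3 * |s| * x ^ 2 + pc (x - |s|)) := by
  have h : |s + x| ^ 3 + |s - x| ^ 3 = (|s| + x) ^ 3 + |(|s| - x)| ^ 3 := by
    rcases le_total 0 s with hs | hs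
    · rw [abs_of_nonneg hs, abs_of_nonneg (by linarith : 0 ≤ s + x)]
    · rw [abs_of_nonpos hs]
      have h1 : |s - x| = -s + x := by
        rw [abs_of_nonpos (by linarith : s - x ≤ 0)]; ring
      have h2 : |s + x| = |(-s - x)| := by rw [← abs_neg]; congr 1; ring
      rw [h1, h2]; ring
  rw [h]
  have hy := abs_nonneg s
  set y := |s|
  unfold pc
  rcases le_total x y with hxy | hxy
  · rw [max_eq_right (by linarith : x - y ≤ 0), abs_of_nonneg (by linarith : 0 ≤ y - x)]; ring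
  · rw [max_eq_left (by linarith : 0 ≤ x - y), abs_of_nonpos (by linarith : y - x ≤ 0)]; ring

lemma pc_of_nonneg {x : ℝ} (h : 0 ≤ x) : pc x = x ^ 3 := by unfold pc; rw [max_eq_left h]
lemma pc_of_nonpos {x : ℝ} (h : x ≤ 0) : pc x = 0 := by unfold pc; rw [max_eq_right h]; norm_num
lemma pc_nonneg (x : ℝ) : 0 ≤ pc x := by unfold pc; positivity
lemma pc_mono {x y : ℝ} (h : x ≤ y) : pc x ≤ pc y := by
  unfold pc
  exact pow_le_pow_left₀ (le_max_right _ _) (max_le_max_right 0 h) 3

section pw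
variable {a b R : ℝ}

/-- the case `b - a ≤ y ≤ b` -/
lemma core1 (ha : 0 ≤ a) (hab : a ≤ b) (hb : 0 < b) (hR : 0 ≤ R) (hR2 : R ^ 2 = 2 * (a ^ 2 + b ^ 2))
    {y : ℝ} (hy : y ≤ b) :
    (b ^ 2 - a ^ 2) ^ 2 / 4096 ≤ b * ((R - y) ^ 3 - (a + b - y) ^ 3) := by
  have hRA : a + b ≤ R := by
    apply le_of_sq_le_sq _ hR
    nlinarith [sq_nonneg (a - b)]
  have hRb : R ≤ 2 * b := by
    apply le_of_sq_le_sq _ (by linarith)
    nlinarith
  set δ := R - (a + b) with hδ
  have hδ0 : 0 ≤ δ := by linarith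
  have hδ1 : (b - a) ^ 2 ≤ δ * (4 * b) := by
    have : δ * (R + (a + b)) = (b - a) ^ 2 := by
      rw [hδ]; nlinarith
    rw [← this]
    apply mul_le_mul_of_nonneg_left _ hδ0
    linarith
  set p := a + b - y with hp
  have hpa : a ≤ p := by rw [hp]; linarith
  have e : (R - y) ^ 3 - p ^ 3 = δ * (3 * p ^ 2 + 3 * p * δ + δ ^ 2) := by
    have : R - y = p + δ := by rw [hp, hδ]; ring
    rw [this]; ring
  rw [e]
  have hp0 : 0 ≤ p := ha.trans hpa
  have hpa2 : a ^ 2 ≤ p ^ 2 := pow_le_pow_left₀ ha hpa 2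
  have h1 : δ * (3 * a ^ 2 + δ ^ 2) ≤ δ * (3 * p ^ 2 + 3 * p * δ + δ ^ 2) := by
    apply mul_le_mul_of_nonneg_left _ hδ0
    nlinarith [mul_nonneg hp0 hδ0]
  have h2 : b * (δ * (3 * a ^ 2 + δ ^ 2)) ≤ b * (δ * (3 * p ^ 2 + 3 * p * δ + δ ^ 2)) :=
    mul_le_mul_of_nonneg_left h1 hb.le
  refine le_trans ?_ h2
  have hB : (b ^ 2 - a ^ 2) ^ 2 = (b - a) ^ 2 * (b + a) ^ 2 := by ring
  rw [hB]
  have hB0 : 0 ≤ (b - a) ^ 2 := sq_nonneg _
  rcases le_total b (2 * a) with h | h
  · -- a ≥ b / 2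
    have h3 : (b + a) ^ 2 ≤ 4 * b ^ 2 := by nlinarith
    have h4 : b ^ 2 ≤ 4 * a ^ 2 := by nlinarith
    have h5 : (b - a) ^ 2 * (b + a) ^ 2 ≤ (b - a) ^ 2 * (16 * a ^ 2) := by
      apply mul_le_mul_of_nonneg_left _ hB0
      linarith
    have h6 : (b - a) ^ 2 * (16 * a ^ 2) ≤ (δ * (4 * b)) * (16 * a ^ 2) :=
      mul_le_mul_of_nonneg_right hδ1 (by positivity)
    have h7 : 0 ≤ b * (δ * δ ^ 2) := by positivity
    have h8 : 0 ≤ b * (δ * a ^ 2) := by positivity
    nlinarith
  · have h3 : (b + a) ^ 2 ≤ 4 * b ^ 2 := by nlinarith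
    have h4 : b ^ 2 ≤ 4 * (b - a) ^ 2 := by nlinarith
    -- δ^3 b ≥ (b-a)^2 b^2 / 1024
    have h5 : ((b - a) ^ 2) ^ 3 ≤ (δ * (4 * b)) ^ 3 := pow_le_pow_left₀ hB0 hδ1 3
    have h6 : (b - a) ^ 2 * (b ^ 2) ^ 2 ≤ 16 * ((b - a) ^ 2) ^ 3 := by
      have : (b ^ 2) ^ 2 ≤ (4 * (b - a) ^ 2) ^ 2 := pow_le_pow_left₀ (by positivity) h4 2
      have := mul_le_mul_of_nonneg_left this hB0
      nlinarith
    have h7 : (b - a) ^ 2 * (b ^ 2) ^ 2 ≤ 1024 * (δ ^ 3 * b) * b ^ 2 := by
      nlinarith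
    have h8 : (b - a) ^ 2 * b ^ 2 ≤ 1024 * (δ ^ 3 * b) := by
      have hb2 : 0 < b ^ 2 := by positivity
      have : ((b - a) ^ 2 * b ^ 2) * b ^ 2 ≤ (1024 * (δ ^ 3 * b)) * b ^ 2 := by nlinarith
      exact le_of_mul_le_mul_right this hb2
    have h9 : (b - a) ^ 2 * (b + a) ^ 2 ≤ (b - a) ^ 2 * (4 * b ^ 2) :=
      mul_le_mul_of_nonneg_left h3 hB0
    have h10 : 0 ≤ b * (δ * (3 * a ^ 2)) := by positivity
    have h11 : b * (δ * (3 * a ^ 2 + δ ^ 2)) = b * (δ * (3 * a ^ 2)) + δ ^ 3 * b := by ring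
    rw [h11]
    linarith

lemma core2 (ha : 0 ≤ a) (hab : a ≤ b) (hR : 0 ≤ R) (hR2 : R ^ 2 = 2 * (a ^ 2 + b ^ 2))
    {y : ℝ} (hy0 : 0 ≤ y) (hy : y ≤ b - a) :
    (R - (b - a)) ^ 3 - (a + b - (b - a)) ^ 3
      ≤ (R - y) ^ 3 - (a + b - y) ^ 3 - (b - a - y) ^ 3 := by
  have hRA : a + b ≤ R := by
    apply le_of_sq_le_sq _ hR
    nlinarith [sq_nonneg (a - b)]
  set A := a + b with hA
  set B := b - a with hB
  have hB0 : 0 ≤ B := by linarith
  have hBA : B ≤ A := by rw [hA, hB]; linarith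
  set Q := B - y with hQ
  have hQ0 : 0 ≤ Q := by linarith
  have hQB : Q ≤ B := by linarith
  set W := R + A with hW
  have hW2 : 2 * B ≤ W := by linarith
  have hδW : (R - A) * W = B ^ 2 := by rw [hW, hA, hB]; nlinarith
  have key : Q ^ 2 ≤ 3 * (R - A) * (W - 2 * B + Q) := by
    rcases eq_or_lt_of_le hB0 with h | h
    · have : Q = 0 := by linarith
      rw [this]
      have h1 : 0 ≤ R - A := by linarith
      have h2 : 0 ≤ W - 2 * B + 0 := by linarith
      have h3 := mul_nonneg (mul_nonneg (by norm_num : (0 : ℝ) ≤ 3) h1) h2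
      linarith
    · have hWpos : 0 < W := by linarith
      have h1 : Q ^ 2 * W ≤ (3 * (R - A) * (W - 2 * B + Q)) * W := by
        have e : (3 * (R - A) * (W - 2 * B + Q)) * W - Q ^ 2 * W
            = (W - 2 * B) * (3 * B ^ 2 - Q ^ 2) + B * Q * (3 * B - 2 * Q) := by
          have : (3 * (R - A) * (W - 2 * B + Q)) * W = 3 * ((R - A) * W) * (W - 2 * B + Q) := by ring
          rw [this, hδW]; ring
        have h2 : 0 ≤ (W - 2 * B) * (3 * B ^ 2 - Q ^ 2) := by
          apply mul_nonneg (by linarith); nlinarith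
        have h3 : 0 ≤ B * Q * (3 * B - 2 * Q) := by
          apply mul_nonneg (mul_nonneg hB0 hQ0); linarith
        linarith
      exact le_of_mul_le_mul_right h1 hWpos
  have ey : y = B - Q := by rw [hQ]; ring
  have e : (R - y) ^ 3 - (A - y) ^ 3 - (B - y) ^ 3 - ((R - B) ^ 3 - (A - B) ^ 3)
      = Q * (3 * (R - A) * (W - 2 * B + Q) - Q ^ 2) := by
    rw [ey, hW]; ring
  have : 0 ≤ Q * (3 * (R - A) * (W - 2 * B + Q) - Q ^ 2) := mul_nonneg hQ0 (by linarith)
  linarith

lemma core (ha : 0 ≤ a) (hab : a ≤ b) (hb : 0 < b) (hR : 0 ≤ R)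
    (hR2 : R ^ 2 = 2 * (a ^ 2 + b ^ 2)) (y : ℝ) (hy0 : 0 ≤ y) :
    (if y ≤ b then (b ^ 2 - a ^ 2) ^ 2 / (4096 * b) else 0)
      ≤ pc (R - y) - pc (a + b - y) - pc (b - a - y) := by
  have hRA : a + b ≤ R := by
    apply le_of_sq_le_sq _ hR
    nlinarith [sq_nonneg (a - b)]
  split_ifs with hy
  · have hdiv : (b ^ 2 - a ^ 2) ^ 2 / (4096 * b) = ((b ^ 2 - a ^ 2) ^ 2 / 4096) / b := by
      field_simp
    rw [hdiv, div_le_iff₀ hb]
    rw [pc_of_nonneg (by linarith : 0 ≤ R - y), pc_of_nonneg (by linarith : 0 ≤ a + b - y)]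
    rcases le_total (b - a) y with h | h
    · rw [pc_of_nonpos (by linarith : b - a - y ≤ 0)]
      have := core1 ha hab hb hR hR2 hy
      linarith
    · rw [pc_of_nonneg (by linarith : 0 ≤ b - a - y)]
      have h1 := core2 ha hab hR hR2 hy0 h
      have h2 := core1 ha hab hb hR hR2 (by linarith : b - a ≤ b)
      have h3 := mul_le_mul_of_nonneg_left h1 hb.le
      linarith
  · push Not at hy
    rw [pc_of_nonpos (by linarith : b - a - y ≤ 0)]
    have := pc_mono (by linarith : a + b - y ≤ R - y)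
    linarith

end pw

/-- averaging the largest squared weight with another one -/
lemma averaging (L : List ℝ) (a b : ℝ) (ha : 0 ≤ a) (hab : a ≤ b) (hb : 0 < b) (hb1 : b ≤ 1)
    (h0 : ∀ x ∈ L, 0 ≤ x) (h1 : ∀ x ∈ L, x ≤ b) (h2 : (L.map (fun x => x ^ 2)).sum ≤ 1) :
    EL (b :: a :: L) (fun s => |s| ^ 3) + (b ^ 2 - a ^ 2) ^ 2 / 1572864
      ≤ EL (√((a ^ 2 + b ^ 2) / 2) :: √((a ^ 2 + b ^ 2) / 2) :: L) (fun s => |s| ^ 3) := by
  set z := √((a ^ 2 + b ^ 2) / 2) with hz
  have hz0 : 0 ≤ z := Real.sqrt_nonneg _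
  have hz2 : z ^ 2 = (a ^ 2 + b ^ 2) / 2 := Real.sq_sqrt (by positivity)
  simp only [EL]
  have hsb := small_ball L b hb hb1 h0 h1 h2
  have key : EL L (fun s => (b ^ 2 - a ^ 2) ^ 2 / (8192 * b) * (if |s| ≤ b then (1 : ℝ) else 0))
      ≤ EL L (fun s => (1 / 4 : ℝ) * ((|s + z + z| ^ 3 + |s - z + z| ^ 3
          + (|s + z - z| ^ 3 + |s - z - z| ^ 3)) - (|s + a + b| ^ 3 + |s - a + b| ^ 3
          + (|s + a - b| ^ 3 + |s - a - b| ^ 3)))) := by
    apply EL_mono
    intro s
    have e1 : |s + z + z| ^ 3 + |s - z + z| ^ 3 + (|s + z - z| ^ 3 + |s - z - z| ^ 3)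
        = (|s + 2 * z| ^ 3 + |s - 2 * z| ^ 3) + 2 * |s| ^ 3 := by
      have t1 : s + z + z = s + 2 * z := by ring
      have t2 : s - z + z = s := by ring
      have t3 : s + z - z = s := by ring
      have t4 : s - z - z = s - 2 * z := by ring
      rw [t1, t2, t3, t4]; ring
    have e2 : |s + a + b| ^ 3 + |s - a + b| ^ 3 + (|s + a - b| ^ 3 + |s - a - b| ^ 3)
        = (|s + (a + b)| ^ 3 + |s - (a + b)| ^ 3) + (|s + (b - a)| ^ 3 + |s - (b - a)| ^ 3) := by
      have t1 : s + a + b = s + (a + b) := by ring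
      have t2 : s - a + b = s + (b - a) := by ring
      have t3 : s + a - b = s - (b - a) := by ring
      have t4 : s - a - b = s - (a + b) := by ring
      rw [t1, t2, t3, t4]; ring
    rw [e1, e2, abs_cube_pair s (2 * z) (by linarith), abs_cube_pair s (a + b) (by linarith),
      abs_cube_pair s (b - a) (by linarith)]
    have hc := core ha hab hb (by linarith : 0 ≤ 2 * z)
      (by rw [mul_pow, hz2]; ring) |s| (abs_nonneg s)
    have e3 : (b ^ 2 - a ^ 2) ^ 2 / (8192 * b) * (if |s| ≤ b then (1 : ℝ) else 0)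
        = (1 / 2) * (if |s| ≤ b then (b ^ 2 - a ^ 2) ^ 2 / (4096 * b) else 0) := by
      split_ifs
      · field_simp; ring
      · simp
    rw [e3]
    have e4 : |s| * (2 * z) ^ 2 = |s| * (a + b) ^ 2 + |s| * (b - a) ^ 2 := by
      rw [mul_pow, hz2]; ring
    nlinarith
  rw [EL_mul, EL_mul, EL_sub, EL_add, EL_add, EL_add, EL_add, EL_add, EL_add] at key
  have h3 : (b ^ 2 - a ^ 2) ^ 2 / (8192 * b) * (b / 192)
      ≤ (b ^ 2 - a ^ 2) ^ 2 / (8192 * b) * EL L (fun s => if |s| ≤ b then (1 : ℝ) else 0) :=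
    mul_le_mul_of_nonneg_left hsb (by positivity)
  have h4 : (b ^ 2 - a ^ 2) ^ 2 / (8192 * b) * (b / 192) = (b ^ 2 - a ^ 2) ^ 2 / 1572864 := by
    field_simp; ring
  rw [h4] at h3
  linarith


/-! ### assembly -/

lemma thirdMoment_perm {n : ℕ} (a : Fin n → ℝ) (i j : Fin n) (hij : i ≠ j) :
    thirdMoment a = EL (a i :: a j ::
      (((Finset.univ.erase i).erase j).val.map a).toList) (fun s => |s| ^ 3) := by
  rw [thirdMoment_eq]
  apply EL_perm
  rw [← Multiset.coe_eq_coe, ← Multiset.cons_coe, ← Multiset.cons_coe, Multiset.coe_toList,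
    ← Fin.univ_val_map]
  rw [← Multiset.map_cons, ← Multiset.map_cons]
  congr 1
  have h1 : j ∈ (Finset.univ.erase i : Finset (Fin n)) := by simp [hij.symm]
  have h2 : i ∈ (Finset.univ : Finset (Fin n)) := by simp
  have e1 : j ::ₘ ((Finset.univ.erase i).erase j : Finset (Fin n)).val
      = (Finset.univ.erase i : Finset (Fin n)).val := by
    rw [Finset.erase_val]; exact Multiset.cons_erase (Finset.mem_val.mpr h1)
  have e2 : i ::ₘ (Finset.univ.erase i : Finset (Fin n)).val
      = (Finset.univ : Finset (Fin n)).val := by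
    rw [Finset.erase_val]; exact Multiset.cons_erase (Finset.mem_val.mpr h2)
  rw [e1, e2]

lemma thirdMoment_abs {n : ℕ} (a : Fin n → ℝ) :
    thirdMoment a = thirdMoment (fun i => |a i|) := by
  unfold thirdMoment
  congr 1
  have h : Function.Involutive (fun (ε : Fin n → Bool) (i : Fin n) =>
      if 0 ≤ a i then ε i else !(ε i)) := by
    intro ε
    funext i
    simp only
    split_ifs <;> simp
  rw [← Equiv.sum_comp (h.toPerm _)]
  apply Finset.sum_congr rfl
  intro ε _
  congr 2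
  apply Finset.sum_congr rfl
  intro i _
  simp only [Function.Involutive.coe_toPerm]
  split_ifs with h0
  · rw [abs_of_nonneg h0]
  · push Not at h0
    rw [abs_of_neg h0]
    cases ε i <;> simp [sg]

/-- Φ(u) = E|∑ √u_i ε_i|³ + C ∑ u_i² -/
noncomputable def Phi {n : ℕ} (C : ℝ) (u : Fin n → ℝ) : ℝ :=
  thirdMoment (fun i => √(u i)) + C * ∑ i, u i ^ 2

lemma Phi_continuous {n : ℕ} (C : ℝ) : Continuous (Phi (n := n) C) := by
  unfold Phi thirdMoment
  fun_prop

lemma max_unif {n : ℕ} (hn : 1 ≤ n) (u : Fin n → ℝ) (hu : u ∈ stdSimplex ℝ (Fin n)) :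
    Phi (1 / 1600000) u ≤ Phi (1 / 1600000) (fun _ : Fin n => 1 / (n : ℝ)) := by
  haveI : Nonempty (Fin n) := ⟨⟨0, hn⟩⟩
  obtain ⟨v, hv, hmax⟩ := (isCompact_stdSimplex ℝ (Fin n)).exists_isMaxOn ⟨u, hu⟩
    (Phi_continuous (n := n) (1 / 1600000)).continuousOn
  have hmax' : ∀ w ∈ stdSimplex ℝ (Fin n), Phi (1 / 1600000) w ≤ Phi (1 / 1600000) v :=
    fun w hw => hmax hw
  obtain ⟨i, hi⟩ := Finite.exists_max v
  obtain ⟨j, hj⟩ := Finite.exists_min v
  by_cases hij : v i = v j
  · have hconst : ∀ k, v k = v i := fun k => le_antisymm (hi k) (hij ▸ hj k)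
    have hv1 : v = fun _ => 1 / (n : ℝ) := by
      have h1 := hv.2
      rw [Finset.sum_congr rfl (fun k _ => hconst k)] at h1
      simp only [Finset.sum_const, Finset.card_univ, Fintype.card_fin, nsmul_eq_mul] at h1
      funext k
      rw [hconst k]
      have : (n : ℝ) ≠ 0 := by positivity
      field_simp
      linarith
    rw [← hv1]
    exact hmax' u hu
  · exfalso
    have hne : i ≠ j := fun h => hij (by rw [h])
    have hlt : v j < v i := lt_of_le_of_ne (hj i) (Ne.symm hij)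
    set m := (v i + v j) / 2 with hm
    set w : Fin n → ℝ := Function.update (Function.update v i m) j m with hw
    have hwi : w i = m := by rw [hw]; simp [Function.update_of_ne hne]
    have hwj : w j = m := by rw [hw]; simp
    have hwk : ∀ k ∈ ((Finset.univ.erase i).erase j : Finset (Fin n)), w k = v k := by
      intro k hk
      simp only [Finset.mem_erase, Finset.mem_univ, and_true] at hk
      rw [hw, Function.update_of_ne hk.1, Function.update_of_ne hk.2]
    have hvi0 : 0 ≤ v i := hv.1 i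
    have hvj0 : 0 ≤ v j := hv.1 j
    have hsplit : ∀ g : Fin n → ℝ, ∑ k, g k = g i + (g j + ∑ k ∈ (Finset.univ.erase i).erase j, g k) := by
      intro g
      rw [Finset.add_sum_erase _ _ (by simp [hne.symm] : j ∈ (Finset.univ.erase i : Finset (Fin n))),
        Finset.add_sum_erase _ _ (Finset.mem_univ i)]
    have hwS : w ∈ stdSimplex ℝ (Fin n) := by
      refine ⟨?_, ?_⟩
      · intro k
        by_cases h1 : k = i
        · rw [h1, hwi, hm]; linarith
        · by_cases h2 : k = j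
          · rw [h2, hwj, hm]; linarith
          · rw [hwk k (by simp [h1, h2])]; exact hv.1 k
      · rw [hsplit w, hwi, hwj, Finset.sum_congr rfl hwk]
        have := hv.2
        rw [hsplit v] at this
        linarith
    have hle := hmax' w hwS
    -- compute
    set L := (((Finset.univ.erase i).erase j).val.map (fun k => √(v k))).toList with hL
    have hLw : (((Finset.univ.erase i).erase j).val.map (fun k => √(w k))).toList = L := by
      rw [hL]
      congr 1
      apply Multiset.map_congr rfl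
      intro k hk
      rw [hwk k hk]
    have hTv : thirdMoment (fun k => √(v k)) = EL (√(v i) :: √(v j) :: L) (fun s => |s| ^ 3) :=
      thirdMoment_perm (fun k => √(v k)) i j hne
    have hTw : thirdMoment (fun k => √(w k)) = EL (√m :: √m :: L) (fun s => |s| ^ 3) := by
      rw [thirdMoment_perm (fun k => √(w k)) i j hne, hLw, hwi, hwj]
    have hmem : ∀ x ∈ L, ∃ k, x = √(v k) := by
      intro x hx
      rw [hL, Multiset.mem_toList, Multiset.mem_map] at hx
      obtain ⟨k, _, rfl⟩ := hx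
      exact ⟨k, rfl⟩
    have hvi1 : v i ≤ 1 := by
      rw [← hv.2]
      exact Finset.single_le_sum (fun k _ => hv.1 k) (Finset.mem_univ i)
    have hvipos : 0 < v i := lt_of_le_of_lt hvj0 hlt
    have hsq : (L.map (fun x => x ^ 2)).sum ≤ 1 := by
      have e : (L.map (fun x => x ^ 2)).sum = ∑ k ∈ (Finset.univ.erase i).erase j, v k := by
        rw [← Multiset.sum_coe, ← Multiset.map_coe, hL, Multiset.coe_toList, Multiset.map_map]
        rw [← Finset.sum_eq_multiset_sum]
        apply Finset.sum_congr rfl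
        intro k _
        simp only [Function.comp]
        exact Real.sq_sqrt (hv.1 k)
      rw [e]
      have := hv.2
      rw [hsplit v] at this
      linarith
    have hav := averaging L (√(v j)) (√(v i)) (Real.sqrt_nonneg _)
      (Real.sqrt_le_sqrt hlt.le) (Real.sqrt_pos.mpr hvipos)
      (Real.sqrt_le_one.mpr hvi1)
      (fun x hx => by obtain ⟨k, rfl⟩ := hmem x hx; exact Real.sqrt_nonneg _)
      (fun x hx => by obtain ⟨k, rfl⟩ := hmem x hx; exact Real.sqrt_le_sqrt (hi k)) hsq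
    rw [Real.sq_sqrt hvi0, Real.sq_sqrt hvj0] at hav
    have hmm : (v j + v i) / 2 = m := by rw [hm]; ring
    rw [hmm, ← hTv, ← hTw] at hav
    unfold Phi at hle
    have hs1 : ∑ k, w k ^ 2 = m ^ 2 + (m ^ 2 + ∑ k ∈ (Finset.univ.erase i).erase j, v k ^ 2) := by
      rw [hsplit (fun k => w k ^ 2), hwi, hwj]
      congr 2
      apply Finset.sum_congr rfl
      intro k hk
      rw [hwk k hk]
    have hs2 : ∑ k, v k ^ 2 = v i ^ 2 + (v j ^ 2 + ∑ k ∈ (Finset.univ.erase i).erase j, v k ^ 2) :=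
      hsplit (fun k => v k ^ 2)
    rw [hs1, hs2] at hle
    have hpos : 0 < (v i - v j) ^ 2 := by
      have : v i - v j ≠ 0 := by intro h; apply hij; linarith
      positivity
    rw [hm] at hle
    nlinarith

/-- **Third-moment Khintchine stability.** There is an absolute constant `C > 0` such that
`E|S|³ ≤ E|S_n|³ - C D(a)` for every `n ≥ 1` and every unit vector `a ∈ ℝⁿ`. -/
theorem result : ∃ C : ℝ, 0 < C ∧ ∀ n : ℕ, 1 ≤ n → ∀ a : Fin n → ℝ, ∑ i, a i ^ 2 = 1 →
    thirdMoment a ≤ thirdMoment (fun _ : Fin n => 1 / √(n : ℝ)) - C * deficit a := by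
  refine ⟨1 / 1600000, by norm_num, ?_⟩
  intro n hn a ha
  have h := max_unif hn (fun i => a i ^ 2) ⟨fun i => sq_nonneg _, ha⟩
  unfold Phi at h
  have e1 : (fun i => √(a i ^ 2)) = fun i => |a i| := by funext i; exact Real.sqrt_sq_eq_abs _
  have e2 : (fun _ : Fin n => √(1 / (n : ℝ))) = fun _ => 1 / √(n : ℝ) := by
    funext i; rw [Real.sqrt_div (by norm_num), Real.sqrt_one]
  simp only at h
  rw [e1, ← thirdMoment_abs, e2] at h
  have hn0 : (n : ℝ) ≠ 0 := by positivity
  have hD : deficit a = ∑ i, (a i ^ 2) ^ 2 - ∑ _i : Fin n, (1 / (n : ℝ)) ^ 2 := by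
    unfold deficit
    have : ∀ i : Fin n, (a i ^ 2 - 1 / (n : ℝ)) ^ 2
        = (a i ^ 2) ^ 2 - (2 / (n : ℝ)) * a i ^ 2 + (1 / (n : ℝ)) ^ 2 := by
      intro i; ring
    rw [Finset.sum_congr rfl (fun i _ => this i), Finset.sum_add_distrib, Finset.sum_sub_distrib,
      ← Finset.mul_sum, ha]
    simp only [Finset.sum_const, Finset.card_univ, Fintype.card_fin, nsmul_eq_mul]
    field_simp
    ring
  rw [hD]
  linarith

end Pool.Agent.Results.MP_223ae3_pr.ThirdMomentStability
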